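import Pool.Agent.V11199.SS.Sep
import Pool.Agent.V11199.SS.Wr

namespace Pool.Agent.Results.MP_68b2c8_al.LimsupInfinite

open Finset Pool.Agent.V11199.SS

/-- `A` is self-separable for `G`: some `g` in `G` moves `A` off itself. -/
def SelfSep {Ω : Type} [DecidableEq Ω] (G : Subgroup (Equiv.Perm Ω)) (A : Finset Ω) : Prop :=
  ∃ g ∈ G, Disjoint A (A.image g)

/-- `m(G)`: the least size of a subset which is not self-separable for `G`. -/
noncomputable def mNum {Ω : Type} [DecidableEq Ω] (G : Subgroup (Equiv.Perm Ω)) : ℕ :=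
  sInf {c : ℕ | ∃ A : Finset Ω, A.card = c ∧ ¬ SelfSep G A}

/-- The class of the primitive permutation groups (degree at least 2) other than the
symmetric and the alternating group in their natural action. -/
def InClass {Ω : Type} [Fintype Ω] [DecidableEq Ω] (G : Subgroup (Equiv.Perm Ω)) : Prop :=
  2 ≤ Fintype.card Ω ∧ MulAction.IsPreprimitive G Ω ∧ G ≠ ⊤ ∧ G ≠ alternatingGroup Ω

/-- The limit superior of `F(n) / sqrt n` over the class is infinite: for every real `C` there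
are groups `G` in the class, of arbitrarily large degree `n`, with `m(G) > C * sqrt n`. -/
theorem result : ∀ (C : ℝ) (n₀ : ℕ), ∃ (Ω : Type) (_ : Fintype Ω) (_ : DecidableEq Ω)
    (G : Subgroup (Equiv.Perm Ω)), n₀ ≤ Fintype.card Ω ∧ InClass G ∧
      C * √(Fintype.card Ω : ℝ) < (mNum G : ℝ) := by
  intro C n₀
  obtain ⟨c, hc⟩ : ∃ c, c = max ⌈C⌉₊ 1 := ⟨_, rfl⟩
  have hc1 : 0 < c := by
    rw [hc]
    exact lt_of_lt_of_le one_pos (le_max_right _ _)
  have hCc : C ≤ (c : ℝ) := by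
    refine (Nat.le_ceil C).trans ?_
    rw [hc]
    exact_mod_cast le_max_left _ _
  obtain ⟨m, hm⟩ : ∃ m, m = 1000000 * c ^ 5 + n₀ + 2 := ⟨_, rfl⟩
  have hm1 : 1000000 * c ^ 5 ≤ m := by omega
  have hm2 : 2 ≤ m := by omega
  have hm3 : n₀ ≤ m := by omega
  have hcard : Fintype.card (Fin 3 → Fin (m ^ 2)) = m ^ 6 := by
    rw [Fintype.card_fun, Fintype.card_fin, Fintype.card_fin]
    ring
  have hm6 : m ≤ m ^ 6 := Nat.le_self_pow (by norm_num) m
  have h4 : 4 ≤ m ^ 2 := by nlinarith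
  refine ⟨Fin 3 → Fin (m ^ 2), inferInstance, inferInstance, Wr (Fin (m ^ 2)), ?_, ?_, ?_⟩
  · rw [hcard]
    omega
  · refine ⟨by rw [hcard]; omega, Wr_primitive _ (by rw [Fintype.card_fin]; omega), ?_, ?_⟩
    · intro h
      refine Wr_not_alt (Fin (m ^ 2)) (by rw [Fintype.card_fin]; omega) ?_
      rw [h]
      exact le_top
    · intro h
      exact Wr_not_alt (Fin (m ^ 2)) (by rw [Fintype.card_fin]; omega) (le_of_eq h.symm)
  · have hsq : √((m : ℝ) ^ 6) = (m : ℝ) ^ 3 := by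
      rw [show (m : ℝ) ^ 6 = ((m : ℝ) ^ 3) ^ 2 by ring]
      exact Real.sqrt_sq (by positivity)
    rw [hcard]
    push_cast
    rw [hsq]
    by_contra hcon
    push Not at hcon
    have hne : {k : ℕ | ∃ A : Finset (Fin 3 → Fin (m ^ 2)), A.card = k ∧
        ¬ SelfSep (Wr (Fin (m ^ 2))) A}.Nonempty := by
      refine ⟨_, Finset.univ, rfl, ?_⟩
      rintro ⟨g, _, hg⟩
      have h0 : 0 < m ^ 2 := by omega
      have x : Fin 3 → Fin (m ^ 2) := fun _ => ⟨0, h0⟩
      exact Finset.disjoint_left.mp hg (Finset.mem_univ (g x))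
        (Finset.mem_image.mpr ⟨x, Finset.mem_univ _, rfl⟩)
    obtain ⟨A, hA, hAsep⟩ := Nat.sInf_mem hne
    have hAc : (A.card : ℝ) ≤ c * (m : ℝ) ^ 3 := by
      have h1 : (A.card : ℝ) ≤ C * (m : ℝ) ^ 3 := by
        rw [hA]
        exact hcon
      exact h1.trans (mul_le_mul_of_nonneg_right hCc (by positivity))
    have hAc' : A.card ≤ c * m ^ 3 := by exact_mod_cast hAc
    obtain ⟨s, hs⟩ := sep A c m hc1 hm1 (by rw [Fintype.card_fin]) hAc'
    refine hAsep ⟨wrMk 1 s, wrMk_mem _ _, ?_⟩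
    rw [Finset.disjoint_left]
    intro x hx hx'
    obtain ⟨a, ha, rfl⟩ := Finset.mem_image.mp hx'
    exact hs a ha hx

end Pool.Agent.Results.MP_68b2c8_al.LimsupInfinite
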